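import Pool.Agent.H297R2.LPM.Line
import Pool.Agent.H337R2.LP.BAbs
import Pool.Agent.H782R2.LPB.GramA

/-! The determinant `DD` through the Lagrange basis, with a perturbation. -/

open Polynomial Filter Topology MeasureTheory

namespace Pool.Agent.LP.MS

open Pool.Agent.LP Pool.Agent.LPB.GramAux

noncomputable section

/-- residue weights -/
def rr (a b k : ℕ) : ℚ := (-1) ^ k * ((An a).eval (-(k : ℚ)) / ∏ j ∈ (Finset.Icc a b).erase k, ((j : ℚ) - k))

/-- the point of the pole `-k` in the variable `y` -/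
def yk (k : ℕ) : ℂ := Complex.I * ((k : ℂ) + 1 / 2)

/-- the perturbation functional -/
def BF (a b : ℕ) : ℂ[X] →ₗ[ℂ] ℂ where
  toFun f := ∑ k ∈ Finset.Icc a b, ((rr a b k : ℚ) : ℂ) * f.eval (yk k)
  map_add' f g := by
    simp only [eval_add, mul_add, Finset.sum_add_distrib]
  map_smul' c f := by
    simp only [eval_smul, smul_eq_mul, RingHom.id_apply, Finset.mul_sum]
    exact Finset.sum_congr rfl fun k _ => by ring

lemma BF_apply (a b : ℕ) (f : ℂ[X]) :
    BF a b f = ∑ k ∈ Finset.Icc a b, ((rr a b k : ℚ) : ℂ) * f.eval (yk k) := rfl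

/-- the defect -/
def ep (α β γ : ℚ) : ℝ := (γ : ℝ) - α * Real.log 2 - β * (Real.pi ^ 2 / 12)

/-- the full functional in the variable `y` -/
def NE (a b : ℕ) (α β γ : ℚ) : ℂ[X] →ₗ[ℂ] ℂ := NF a b α β + ((ep α β γ : ℝ) : ℂ) • BF a b

lemma NE_apply (a b : ℕ) (α β γ : ℚ) (f : ℂ[X]) :
    NE a b α β γ f = NF a b α β f + ((ep α β γ : ℝ) : ℂ) * BF a b f := rfl

lemma L_pow (a b : ℕ) (α β γ : ℚ) (i : ℕ) :
    ((L a b α β γ (X ^ i) : ℚ) : ℂ) = Complex.I ^ i * NE a b α β γ ((X - C (Complex.I / 2)) ^ i) := by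
  rw [A_line_gen, NE_apply, mul_add]
  have hI := Complex.I_mul_I
  congr 1
  · rw [NF_apply, ← integral_const_mul]
    congr 1
    ext y
    rw [map_pow, aeval_X, eval_pow, eval_sub, eval_X, eval_C, ← mul_assoc, ← mul_pow]
    congr 2
    unfold zl
    linear_combination (1/2 : ℂ) * hI
  · rw [mul_left_comm]
    congr 1
    rw [BF_apply, Finset.mul_sum]
    push_cast
    refine Finset.sum_congr rfl fun k _ => ?_
    rw [eval_pow, eval_sub, eval_X, eval_C]
    have h1 : Complex.I ^ i * (yk k - Complex.I / 2) ^ i = (-(k : ℂ)) ^ i := by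
      rw [← mul_pow]
      congr 1
      unfold yk
      linear_combination (k : ℂ) * hI
    have h2 : ((rs a b (X ^ i) k : ℚ) : ℂ) * (-1) ^ k = ((rr a b k : ℚ) : ℂ) * (-(k : ℂ)) ^ i := by
      unfold rs rr
      rw [eval_mul, eval_pow, eval_X]
      push_cast
      ring
    calc (-1 : ℂ) ^ k * ((rs a b (X ^ i) k : ℚ) : ℂ) = ((rs a b (X ^ i) k : ℚ) : ℂ) * (-1) ^ k := mul_comm _ _
      _ = ((rr a b k : ℚ) : ℂ) * (Complex.I ^ i * (yk k - Complex.I / 2) ^ i) := by rw [h2, h1]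
      _ = _ := by ring

/-- the determinant in terms of monomials in `y` -/
lemma DD_norm (a b m : ℕ) (α β γ : ℚ) :
    |((DD a b m α β γ : ℚ) : ℝ)| =
      ‖(Matrix.of fun i j : Fin m => NE a b α β γ (X ^ (i.1 + j.1))).det‖ := by
  set N := NE a b α β γ with hN
  have h1 : ((DD a b m α β γ : ℚ) : ℂ) = (Matrix.of fun i j : Fin m =>
      (Complex.I ^ (i : ℕ)) * (Complex.I ^ (j : ℕ)) *
        (Matrix.of fun i j : Fin m => N ((X - C (Complex.I / 2)) ^ (i : ℕ) *
          (X - C (Complex.I / 2)) ^ (j : ℕ))) i j).det := by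
    unfold DD
    have e0 : ((Matrix.of fun i j : Fin m => L a b α β γ (X ^ ((i : ℕ) + (j : ℕ)))).det : ℂ) =
      ((algebraMap ℚ ℂ).mapMatrix (Matrix.of fun i j : Fin m =>
        L a b α β γ (X ^ ((i : ℕ) + (j : ℕ))))).det := by
      rw [← RingHom.map_det]; rfl
    rw [e0]
    congr 1
    ext i j
    simp only [RingHom.mapMatrix_apply, Matrix.map_apply, Matrix.of_apply]
    have e1 : (algebraMap ℚ ℂ) (L a b α β γ (X ^ ((i : ℕ) + (j : ℕ)))) =
      ((L a b α β γ (X ^ ((i : ℕ) + (j : ℕ))) : ℚ) : ℂ) := rfl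
    rw [e1, L_pow, ← hN, ← pow_add, ← pow_add]
  have h3 : ‖((DD a b m α β γ : ℚ) : ℂ)‖ = |((DD a b m α β γ : ℚ) : ℝ)| := by
    rw [Complex.norm_ratCast]
  rw [← h3, h1, BA_det_scale m _ (fun i => Complex.I ^ i) (fun i => by
      rw [norm_pow, Complex.norm_I, one_pow])]
  rw [BA_det_monic N m (fun i => (X - C (Complex.I / 2)) ^ i) (fun i _ =>
      ⟨(monic_X_sub_C _).pow i, by rw [natDegree_pow, natDegree_X_sub_C, mul_one]⟩)]

/-- complexified Lagrange basis -/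
def lgc (m : ℕ) (x : ℕ → ℝ) (i : ℕ) : ℂ[X] := (lg m x i).map (algebraMap ℝ ℂ)

lemma DD_lagrange (a b m : ℕ) (α β γ : ℚ) (x : ℕ → ℝ) (hx : Set.InjOn x (Finset.range m)) :
    |((DD a b m α β γ : ℚ) : ℝ)| * ∏ i ∈ Finset.range m, ∏ j ∈ (Finset.range m).erase i, |x i - x j| =
      ‖(Matrix.of fun i j : Fin m => NE a b α β γ (lgc m x i * lgc m x j)).det‖ := by
  rw [BA_gram (NE a b α β γ) m (lgc m x) (fun i hi => by
    unfold lgc
    rw [natDegree_map]
    exact lg_deg m x i hi), Matrix.det_mul, Matrix.det_mul, Matrix.det_transpose, norm_mul, norm_mul,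
    ← DD_norm]
  have h1 : (Matrix.of fun (i : Fin m) (k : Fin m) => (lgc m x i).coeff (k : ℕ)) =
      (algebraMap ℝ ℂ).mapMatrix (cf m (lg m x)) := by
    ext i k
    simp only [Matrix.of_apply, RingHom.mapMatrix_apply, Matrix.map_apply, cf, lgc, coeff_map]
  have h2 : ‖(Matrix.of fun (i : Fin m) (k : Fin m) => (lgc m x i).coeff (k : ℕ)).det‖ ^ 2 =
      ∏ i ∈ Finset.range m, ∏ j ∈ (Finset.range m).erase i, |x i - x j| := by
    rw [h1, ← RingHom.map_det, ← det_cf_lg m x hx]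
    have h3 : ‖(algebraMap ℝ ℂ) (cf m (lg m x)).det‖ = |(cf m (lg m x)).det| := by
      rw [norm_algebraMap', Real.norm_eq_abs]
    rw [h3, sq_abs]
  rw [← h2]
  ring

end

end Pool.Agent.LP.MS
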