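import Pool.Agent.H297R2.LPM.Arch1

/-! Bounds for the perturbation functional. -/

open Polynomial Filter Topology MeasureTheory

namespace Pool.Agent.LP.MS

open Pool.Agent.LP Pool.Agent.LPB.GramAux

noncomputable section

lemma An_bd (a k : ℕ) (hk : a ≤ k) : |(An a).eval (-(k : ℚ))| ≤ (k : ℚ) ^ a := by
  have h : ∀ i ∈ Finset.range a, |Polynomial.eval (-(k : ℚ)) ((X : ℚ[X]) + C (i : ℚ))| ≤ (k : ℚ) := by
    intro i hi
    have hi' : (i : ℚ) < a := by exact_mod_cast Finset.mem_range.1 hi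
    have hk' : (a : ℚ) ≤ k := by exact_mod_cast hk
    have h0 : (0 : ℚ) ≤ i := Nat.cast_nonneg i
    rw [eval_add, eval_X, eval_C, abs_le]
    constructor <;> linarith
  have h2 : ∏ i ∈ Finset.range a, |Polynomial.eval (-(k : ℚ)) ((X : ℚ[X]) + C (i : ℚ))| ≤
      ∏ _i ∈ Finset.range a, (k : ℚ) := Finset.prod_le_prod (fun _ _ => abs_nonneg _) h
  rw [Finset.prod_const, Finset.card_range] at h2
  unfold An
  rw [eval_prod, Finset.abs_prod]
  exact h2

lemma prod_low (a k : ℕ) (hk : a ≤ k) : ∏ j ∈ Finset.Ico a k, |((j : ℚ) - k)| = ((k - a).factorial : ℚ) := by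
  rw [Finset.prod_Ico_eq_prod_range]
  have h1 : ∀ i ∈ Finset.range (k - a), |(((a + i : ℕ) : ℚ) - k)| = (((k - a) - i : ℕ) : ℚ) := by
    intro i hi
    have hi' := Finset.mem_range.1 hi
    rw [abs_sub_comm, abs_of_nonneg]
    · have : ((k - a - i : ℕ) : ℚ) = (k : ℚ) - ((a + i : ℕ) : ℚ) := by
        rw [← Nat.cast_sub (by omega)]
        congr 1
        omega
      rw [this]
    · have : ((a + i : ℕ) : ℚ) ≤ k := by exact_mod_cast (by omega : a + i ≤ k)
      linarith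
  rw [Finset.prod_congr rfl h1, ← Nat.cast_prod, ← Nat.descFactorial_eq_prod_range, Nat.descFactorial_self]

lemma prod_up (b k : ℕ) (_hk : k ≤ b) : ∏ j ∈ Finset.Ico (k + 1) (b + 1), |((j : ℚ) - k)| = ((b - k).factorial : ℚ) := by
  rw [Finset.prod_Ico_eq_prod_range]
  have h1 : ∀ i ∈ Finset.range (b + 1 - (k + 1)), |(((k + 1 + i : ℕ) : ℚ) - k)| = ((i + 1 : ℕ) : ℚ) := by
    intro i _
    push_cast
    rw [abs_of_nonneg (by have : (0 : ℚ) ≤ i := Nat.cast_nonneg i; linarith)]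
    ring
  rw [Finset.prod_congr rfl h1, ← Nat.cast_prod, Finset.prod_range_add_one_eq_factorial]
  congr 2
  omega

lemma den_eq (a b k : ℕ) (h1 : a ≤ k) (h2 : k ≤ b) :
    |∏ j ∈ (Finset.Icc a b).erase k, ((j : ℚ) - k)| = ((k - a).factorial : ℚ) * ((b - k).factorial : ℚ) := by
  have h3 : (Finset.Icc a b).erase k = Finset.Ico a k ∪ Finset.Ico (k + 1) (b + 1) := by
    ext x
    simp only [Finset.mem_erase, Finset.mem_Icc, Finset.mem_union, Finset.mem_Ico]
    omega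
  have h4 : Disjoint (Finset.Ico a k) (Finset.Ico (k + 1) (b + 1)) := by
    rw [Finset.disjoint_left]
    intro x hx hy
    have := Finset.mem_Ico.1 hx
    have := Finset.mem_Ico.1 hy
    omega
  rw [Finset.abs_prod, h3, Finset.prod_union h4, prod_low a k h1, prod_up b k h2]

lemma rr_bd (a b k : ℕ) (h1 : a ≤ k) (h2 : k ≤ b) :
    |(rr a b k : ℚ)| ≤ (b : ℚ) ^ a * 2 ^ (b - a) / ((b - a).factorial : ℚ) := by
  unfold rr
  rw [abs_mul, abs_pow, abs_neg, abs_one, one_pow, one_mul, abs_div, den_eq a b k h1 h2]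
  have hA : |(An a).eval (-(k : ℚ))| ≤ (b : ℚ) ^ a :=
    (An_bd a k h1).trans (pow_le_pow_left₀ (Nat.cast_nonneg k) (by exact_mod_cast h2) a)
  have hc : ((b - a).choose (k - a)) * (k - a).factorial * (b - k).factorial = (b - a).factorial := by
    have h := Nat.choose_mul_factorial_mul_factorial (n := b - a) (k := k - a) (by omega)
    have e : b - a - (k - a) = b - k := by omega
    rwa [e] at h
  have hc2 : (b - a).choose (k - a) ≤ 2 ^ (b - a) := Nat.choose_le_two_pow _ _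
  have f1 : (0 : ℚ) < ((k - a).factorial : ℚ) * ((b - k).factorial : ℚ) := by
    have := Nat.factorial_pos (k - a)
    have := Nat.factorial_pos (b - k)
    positivity
  have f2 : (0 : ℚ) < ((b - a).factorial : ℚ) := by exact_mod_cast Nat.factorial_pos (b - a)
  have hcQ : (((b - a).choose (k - a) : ℕ) : ℚ) * (((k - a).factorial : ℚ) * ((b - k).factorial : ℚ)) =
      ((b - a).factorial : ℚ) := by
    rw [← hc]
    push_cast
    ring
  have hc2Q : (((b - a).choose (k - a) : ℕ) : ℚ) ≤ 2 ^ (b - a) := by exact_mod_cast hc2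
  rw [div_le_div_iff₀ f1 f2, ← hcQ]
  have hb : (0 : ℚ) ≤ (b : ℚ) ^ a := by positivity
  calc |(An a).eval (-(k : ℚ))| * ((((b - a).choose (k - a) : ℕ) : ℚ) *
        (((k - a).factorial : ℚ) * ((b - k).factorial : ℚ)))
      ≤ (b : ℚ) ^ a * ((2 ^ (b - a)) * (((k - a).factorial : ℚ) * ((b - k).factorial : ℚ))) := by
        apply mul_le_mul hA _ (by positivity) hb
        exact mul_le_mul_of_nonneg_right hc2Q f1.le
    _ = _ := by ring

/-- Lagrange basis at the poles -/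
lemma lgc_bd (m : ℕ) (x : ℕ → ℝ) (i : ℕ) (hi : i < m) (k : ℕ) (R : ℝ) (hR1 : 1 ≤ R)
    (hR : ∀ j < m, (k : ℝ) + 1 / 2 + |x j| ≤ R) :
    ‖(lgc m x i).eval (yk k)‖ ≤ R ^ m := by
  unfold lgc lg
  rw [Polynomial.map_prod, eval_prod, norm_prod]
  have h1 : ∀ j ∈ (Finset.range m).erase i, ‖((X - C (x j)).map (algebraMap ℝ ℂ)).eval (yk k)‖ ≤ R := by
    intro j hj
    have hj' : j < m := Finset.mem_range.1 (Finset.mem_of_mem_erase hj)
    rw [Polynomial.map_sub, map_X, map_C, eval_sub, eval_X, eval_C]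
    refine (norm_sub_le _ _).trans (le_trans ?_ (hR j hj'))
    have h2 : ‖yk k‖ = (k : ℝ) + 1 / 2 := by
      unfold yk
      rw [norm_mul, Complex.norm_I, one_mul]
      have : ((k : ℂ) + 1 / 2) = (((k : ℝ) + 1 / 2 : ℝ) : ℂ) := by push_cast; ring
      rw [this, Complex.norm_real, Real.norm_eq_abs, abs_of_nonneg (by positivity)]
    have h3 : ‖(algebraMap ℝ ℂ) (x j)‖ = |x j| := by
      rw [norm_algebraMap', Real.norm_eq_abs]
    rw [h2, h3]
  calc ∏ j ∈ (Finset.range m).erase i, ‖((X - C (x j)).map (algebraMap ℝ ℂ)).eval (yk k)‖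
      ≤ ∏ _j ∈ (Finset.range m).erase i, R := Finset.prod_le_prod (fun _ _ => norm_nonneg _) h1
    _ = R ^ (m - 1) := by
        rw [Finset.prod_const, Finset.card_erase_of_mem (Finset.mem_range.2 hi), Finset.card_range]
    _ ≤ R ^ m := pow_le_pow_right₀ hR1 (by omega)

lemma BF_bd (a b m : ℕ) (hab : a ≤ b) (x : ℕ → ℝ) (i j : ℕ) (hi : i < m) (hj : j < m) (R : ℝ) (hR1 : 1 ≤ R)
    (hR : ∀ j < m, (b : ℝ) + 1 / 2 + |x j| ≤ R) :
    ‖BF a b (lgc m x i * lgc m x j)‖ ≤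
      ((b - a + 1 : ℕ) : ℝ) * ((b : ℝ) ^ a * 2 ^ (b - a) / ((b - a).factorial : ℝ)) * R ^ (2 * m) := by
  rw [BF_apply]
  refine (norm_sum_le _ _).trans ?_
  have h1 : ∀ k ∈ Finset.Icc a b, ‖((rr a b k : ℚ) : ℂ) * (lgc m x i * lgc m x j).eval (yk k)‖ ≤
      ((b : ℝ) ^ a * 2 ^ (b - a) / ((b - a).factorial : ℝ)) * R ^ (2 * m) := by
    intro k hk
    rw [Finset.mem_Icc] at hk
    have hkb : (k : ℝ) ≤ b := by exact_mod_cast hk.2
    have e1 : ‖((rr a b k : ℚ) : ℂ)‖ ≤ (b : ℝ) ^ a * 2 ^ (b - a) / ((b - a).factorial : ℝ) := by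
      rw [Complex.norm_ratCast]
      have := rr_bd a b k hk.1 hk.2
      have h2 : ((|(rr a b k : ℚ)| : ℚ) : ℝ) ≤ (((b : ℚ) ^ a * 2 ^ (b - a) / ((b - a).factorial : ℚ) : ℚ) : ℝ) := by
        exact_mod_cast this
      push_cast at h2
      exact h2
    have hRk : ∀ j < m, (k : ℝ) + 1 / 2 + |x j| ≤ R := fun j hj => by
      have := hR j hj
      linarith
    have e2 := lgc_bd m x i hi k R hR1 hRk
    have e3 := lgc_bd m x j hj k R hR1 hRk
    rw [norm_mul, eval_mul, norm_mul, two_mul, pow_add]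
    have hR0 : (0 : ℝ) ≤ R := by linarith
    exact mul_le_mul e1 (mul_le_mul e2 e3 (norm_nonneg _) (by positivity)) (by positivity) (by positivity)
  refine (Finset.sum_le_sum h1).trans (le_of_eq ?_)
  rw [Finset.sum_const, Nat.card_Icc, nsmul_eq_mul]
  have : b + 1 - a = b - a + 1 := by omega
  rw [this]
  ring

end

end Pool.Agent.LP.MS
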