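import Pool.Agent.H297R2.LPM.Arch2
import Pool.Agent.H97R2.LPB.Main

/-! The archimedean bound with a small perturbation. -/

open Polynomial Filter Topology MeasureTheory

namespace Pool.Agent.LP.MS

open Pool.Agent.LP Pool.Agent.LPB Pool.Agent.LPB.GramAux

noncomputable section

lemma xn_abs (n j : ℕ) (hj : j < 4 * n + 1) : |xn n j| ≤ 3 * n := by
  have hn : (0 : ℝ) ≤ n := Nat.cast_nonneg n
  unfold xn
  split_ifs with h1 h2 h3 h4
  · have e1 : (j : ℝ) + 1 ≤ n := by exact_mod_cast h1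
    have e0 : (0 : ℝ) ≤ j := Nat.cast_nonneg j
    rw [abs_le]
    constructor <;> linarith
  · have e1 : (((j - n : ℕ) : ℝ)) + 1 ≤ n := by exact_mod_cast (by omega : (j - n) + 1 ≤ n)
    have e0 : (0 : ℝ) ≤ ((j - n : ℕ) : ℝ) := Nat.cast_nonneg _
    rw [abs_le]
    constructor <;> linarith
  · have e1 : (((j - 2 * n : ℕ) : ℝ)) + 1 ≤ n := by exact_mod_cast (by omega : (j - 2 * n) + 1 ≤ n)
    have e0 : (0 : ℝ) ≤ ((j - 2 * n : ℕ) : ℝ) := Nat.cast_nonneg _
    rw [abs_le]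
    constructor <;> linarith
  · have e1 : (((j - 3 * n : ℕ) : ℝ)) + 1 ≤ n := by exact_mod_cast (by omega : (j - 3 * n) + 1 ≤ n)
    have e0 : (0 : ℝ) ≤ ((j - 3 * n : ℕ) : ℝ) := Nat.cast_nonneg _
    rw [abs_le]
    constructor <;> linarith
  · rw [abs_zero]; linarith

lemma exp17 : (5 * 9 ^ 8 / 16 : ℝ) ≤ Real.exp 17 := by
  have h1 : (2.718 : ℝ) ≤ Real.exp 1 := by linarith [Real.exp_one_gt_d9]
  have h2 : Real.exp 17 = Real.exp 1 ^ 17 := by
    rw [← Real.exp_nat_mul]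
    norm_num
  rw [h2]
  calc (5 * 9 ^ 8 / 16 : ℝ) ≤ (2.718 : ℝ) ^ 17 := by norm_num
    _ ≤ _ := pow_le_pow_left₀ (by norm_num) h1 17

lemma base_bound (n : ℕ) (hn : 1 ≤ n) :
    ((5 * n : ℝ) ^ n * 2 ^ (4 * n) / ((4 * n).factorial : ℝ)) * (9 * n : ℝ) ^ (8 * n) ≤
      Real.exp (21 * n + 5 * n * Real.log n) := by
  have hx : (0 : ℝ) < n := by exact_mod_cast hn
  have hf : (0 : ℝ) < ((4 * n).factorial : ℝ) := by exact_mod_cast Nat.factorial_pos _
  have h1 := Real.pow_div_factorial_le_exp (4 * n : ℝ) (by positivity) (4 * n)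
  have h2 : 1 / ((4 * n).factorial : ℝ) ≤ Real.exp (4 * n) / (4 * n : ℝ) ^ (4 * n) := by
    rw [div_le_iff₀ hf] at h1
    rw [div_le_div_iff₀ hf (by positivity), one_mul]
    exact h1
  have h3 : Real.exp (4 * n) = (Real.exp 4) ^ n := by
    rw [← Real.exp_nat_mul]
    ring_nf
  calc ((5 * n : ℝ) ^ n * 2 ^ (4 * n) / ((4 * n).factorial : ℝ)) * (9 * n : ℝ) ^ (8 * n)
      = ((5 * n : ℝ) ^ n * 2 ^ (4 * n)) * (9 * n : ℝ) ^ (8 * n) * (1 / ((4 * n).factorial : ℝ)) := by ring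
    _ ≤ ((5 * n : ℝ) ^ n * 2 ^ (4 * n)) * (9 * n : ℝ) ^ (8 * n) * (Real.exp (4 * n) / (4 * n : ℝ) ^ (4 * n)) :=
        mul_le_mul_of_nonneg_left h2 (by positivity)
    _ = ((5 * n : ℝ) * 2 ^ 4 * (9 * n) ^ 8 * (Real.exp 4 / (4 * n) ^ 4)) ^ n := by
        rw [h3, pow_mul, pow_mul, pow_mul, ← div_pow, ← mul_pow, ← mul_pow, ← mul_pow]
    _ ≤ (Real.exp 21 * (n : ℝ) ^ 5) ^ n := by
        apply pow_le_pow_left₀ (by positivity)
        have e1 : (5 * n : ℝ) * 2 ^ 4 * (9 * n) ^ 8 * (Real.exp 4 / (4 * n) ^ 4) =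
            (5 * 9 ^ 8 / 16) * (Real.exp 4 * (n : ℝ) ^ 5) := by
          field_simp
          ring
        have e2 : Real.exp 21 = Real.exp 17 * Real.exp 4 := by
          rw [← Real.exp_add]
          norm_num
        rw [e1, e2, mul_assoc]
        exact mul_le_mul_of_nonneg_right exp17 (by positivity)
    _ = Real.exp (21 * n + 5 * n * Real.log n) := by
        rw [Real.exp_add, mul_pow, ← Real.exp_nat_mul, ← pow_mul]
        congr 1
        · ring_nf
        · have : (5 : ℝ) * n * Real.log n = ((5 * n : ℕ) : ℝ) * Real.log n := by push_cast; ring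
          rw [this, Real.exp_nat_mul, Real.exp_log hx]

lemma poly_bound (n : ℕ) (hn : 4 ≤ n) : ((4 * n + 1 : ℕ) : ℝ) * (9 * n : ℝ) ^ 2 ≤ Real.exp (10 * Real.log n) := by
  have hx : (4 : ℝ) ≤ n := by exact_mod_cast hn
  have hx0 : (0 : ℝ) < n := by linarith
  have h1 : Real.exp (10 * Real.log n) = (n : ℝ) ^ 10 := by
    have : (10 : ℝ) * Real.log n = ((10 : ℕ) : ℝ) * Real.log n := by norm_num
    rw [this, Real.exp_nat_mul, Real.exp_log hx0]
  rw [h1]
  push_cast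
  have h2 : (4 : ℝ) ^ 7 ≤ (n : ℝ) ^ 7 := pow_le_pow_left₀ (by norm_num) hx 7
  calc (4 * (n : ℝ) + 1) * (9 * n) ^ 2 ≤ (5 * n) * (9 * n) ^ 2 :=
        mul_le_mul_of_nonneg_right (by linarith) (by positivity)
    _ = 405 * (n : ℝ) ^ 3 := by ring
    _ ≤ (n : ℝ) ^ 7 * (n : ℝ) ^ 3 := mul_le_mul_of_nonneg_right (by linarith) (by positivity)
    _ = (n : ℝ) ^ 10 := by ring

lemma BF_num (n m : ℕ) (hn : 4 ≤ n) (hm : m ≤ 4 * n + 1) (i j : ℕ) (hi : i < m) (hj : j < m) :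
    ‖BF n (5 * n) (lgc m (xn n) i * lgc m (xn n) j)‖ ≤
      Real.exp (21 * n + 5 * n * Real.log n + 10 * Real.log n) := by
  have hx : (4 : ℝ) ≤ n := by exact_mod_cast hn
  have h1 := BF_bd n (5 * n) m (by omega) (xn n) i j hi hj (9 * n) (by linarith) (fun l hl => by
    have := xn_abs n l (by omega)
    push_cast
    linarith)
  refine h1.trans ?_
  have e1 : 5 * n - n = 4 * n := by omega
  rw [e1]
  have h2 : (9 * n : ℝ) ^ (2 * m) ≤ (9 * n : ℝ) ^ (8 * n) * (9 * n : ℝ) ^ 2 := by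
    rw [← pow_add]
    exact pow_le_pow_right₀ (by linarith) (by omega)
  have hb := base_bound n (by omega)
  have hp := poly_bound n hn
  have hE : (0 : ℝ) ≤ (5 * n : ℝ) ^ n * 2 ^ (4 * n) / ((4 * n).factorial : ℝ) := by positivity
  push_cast at hp ⊢
  calc (4 * (n : ℝ) + 1) * ((5 * n : ℝ) ^ n * 2 ^ (4 * n) / ((4 * n).factorial : ℝ)) * (9 * n : ℝ) ^ (2 * m)
      ≤ (4 * (n : ℝ) + 1) * ((5 * n : ℝ) ^ n * 2 ^ (4 * n) / ((4 * n).factorial : ℝ)) *
        ((9 * n : ℝ) ^ (8 * n) * (9 * n : ℝ) ^ 2) := mul_le_mul_of_nonneg_left h2 (by positivity)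
    _ = (((5 * n : ℝ) ^ n * 2 ^ (4 * n) / ((4 * n).factorial : ℝ)) * (9 * n : ℝ) ^ (8 * n)) *
        ((4 * (n : ℝ) + 1) * (9 * n : ℝ) ^ 2) := by ring
    _ ≤ Real.exp (21 * n + 5 * n * Real.log n) * Real.exp (10 * Real.log n) :=
        mul_le_mul hb hp (by positivity) (Real.exp_pos _).le
    _ = _ := by rw [← Real.exp_add]

lemma NF_num (n m : ℕ) (α β : ℚ) (i j : ℕ) (A : ℝ)
    (hi : ∫ y : ℝ, (∏ l ∈ (Finset.range m).erase i, (y - xn n l)) ^ 2 * ww n (5 * n) y ≤ A)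
    (hj : ∫ y : ℝ, (∏ l ∈ (Finset.range m).erase j, (y - xn n l)) ^ 2 * ww n (5 * n) y ≤ A) (hA : 0 ≤ A) :
    ‖NF n (5 * n) α β (lgc m (xn n) i * lgc m (xn n) j)‖ ≤ (2 * |(α : ℝ)| + 2 * |(β : ℝ)|) * A := by
  have h1 := BA_entry n (5 * n) α β (lg m (xn n) i) (lg m (xn n) j)
  simp only [lg_eval] at h1
  have hc : 0 ≤ 2 * |(α : ℝ)| + 2 * |(β : ℝ)| := by positivity
  refine le_of_sq_le_sq (h1.trans ?_) (by positivity)
  rw [sq]
  apply mul_le_mul (mul_le_mul_of_nonneg_left hi hc) (mul_le_mul_of_nonneg_left hj hc) _ (by positivity)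
  apply mul_nonneg hc
  exact integral_nonneg fun y => mul_nonneg (sq_nonneg _) (ww_nonneg _ _ y)

theorem B_meas_of (h1 : S_int) (h2 : S_cont) (h4 : S_sep) (h5 : S_pot) (h6 : S_weight) (h7 : S_energy)
    (h8 : S_even) (h9 : S_cert1) (h10 : S_cert2) (h11 : S_cert3) (h12 : S_tail) (h13 : S_Q) :
    ∀ᶠ n : ℕ in atTop, ∀ m : ℕ, 4 * n - 1 ≤ m → m ≤ 4 * n + 1 → ∀ α β γ : ℤ,
      |(γ : ℝ) - α * Real.log 2 - β * (Real.pi ^ 2 / 12)| ≤ Real.exp (-27.7 * n) →
      |((DD n (5 * n) m α β γ : ℚ) : ℝ)| ≤ (2 * |(α : ℝ)| + 2 * |(β : ℝ)| + 1) ^ m *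
        Real.exp (4 * (n : ℝ) ^ 2 * Real.log n - 28.6 * (n : ℝ) ^ 2) := by
  obtain ⟨C0, hC0, n0, hI0⟩ := ZZ97.int_bound h1 h2 h5 h6 h8 h9 h10 h11 h12
  obtain ⟨C3, hC3, hE⟩ := h7
  obtain ⟨C, hCdef⟩ : ∃ C : ℝ, C = C0 + 10 := ⟨_, rfl⟩
  have hC : 0 < C := by rw [hCdef]; linarith
  have hs := ZZ97.nlogn_small (5 * C + C3 + 10) (1 / 20) (by norm_num)
  have hs2 : ∀ᶠ n : ℕ in atTop, (7 : ℝ) * n ≤ 1 / 20 * (n : ℝ) ^ 2 := by
    filter_upwards [eventually_ge_atTop 140] with n hn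
    have : (140 : ℝ) ≤ n := by exact_mod_cast hn
    nlinarith
  filter_upwards [hs, hs2, eventually_ge_atTop (max n0 5)] with n hsn hsn2 hn m hm1 hm2 α β γ hε
  have hn0 : n0 ≤ n := (le_max_left _ _).trans hn
  have hn5 : 5 ≤ n := (le_max_right _ _).trans hn
  have hn5R : (5 : ℝ) ≤ n := by exact_mod_cast hn5
  have hlogn : 1 ≤ Real.log n := by
    rw [Real.le_log_iff_exp_le (by linarith)]
    linarith [Real.exp_one_lt_d9]
  -- the common bound of the integrals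
  obtain ⟨A, hAdef⟩ : ∃ A : ℝ, A = Real.exp (-(665 / 100) * n + 5 * n * Real.log n + C * Real.log n) := ⟨_, rfl⟩
  have hA0 : 0 < A := by rw [hAdef]; exact Real.exp_pos _
  have hI : ∀ i < m, ∫ y : ℝ, (∏ j ∈ (Finset.range m).erase i, (y - xn n j)) ^ 2 * ww n (5 * n) y ≤ A := by
    intro i hi
    refine (hI0 n hn0 m hm1 hm2 i hi).trans ?_
    rw [hAdef, hCdef]
    apply Real.exp_le_exp.2
    nlinarith
  have hinj : Set.InjOn (xn n) (Finset.range m) := by
    intro i hi j hj hij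
    by_contra hne
    have hi' : i < m := by simpa using hi
    have hj' : j < m := by simpa using hj
    have := (h4 (n := n) (by omega) i j (by omega) (by omega) hne).1
    rw [hij, sub_self, abs_zero] at this
    norm_num at this
  have hdet := DD_lagrange n (5 * n) m α β γ (xn n) hinj
  obtain ⟨V, hV⟩ : ∃ V : ℝ, V = ∏ i ∈ Finset.range m, ∏ j ∈ (Finset.range m).erase i, |xn n i - xn n j| := ⟨_, rfl⟩
  rw [← hV] at hdet
  have hne : ∀ i ∈ Finset.range m, ∀ j ∈ (Finset.range m).erase i, |xn n i - xn n j| ≠ 0 := by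
    intro i hi j hj
    have hj' := Finset.mem_erase.1 hj
    have hi2 := Finset.mem_range.1 hi
    have hj2 := Finset.mem_range.1 hj'.2
    have := (h4 (n := n) (by omega) i j (by omega) (by omega) (Ne.symm hj'.1)).1
    intro h0
    rw [h0] at this
    norm_num at this
  have hVpos : 0 < V := by
    rw [hV]
    apply Finset.prod_pos
    intro i hi
    apply Finset.prod_pos
    intro j hj
    exact lt_of_le_of_ne (abs_nonneg _) (Ne.symm (hne i hi j hj))
  have hVlog : Real.log V = ∑ i ∈ Finset.range m, ∑ j ∈ (Finset.range m).erase i, Real.log |xn n i - xn n j| := by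
    rw [hV, Real.log_prod (fun i hi => Finset.prod_ne_zero_iff.2 (hne i hi))]
    exact Finset.sum_congr rfl fun i hi => Real.log_prod (fun j hj => hne i hi j hj)
  have hE' := hE n (by omega) m hm1 hm2
  rw [← hVlog] at hE'
  -- entries
  obtain ⟨c, hc⟩ : ∃ c : ℝ, c = 2 * |(α : ℝ)| + 2 * |(β : ℝ)| + 1 := ⟨_, rfl⟩
  have hc1 : 1 ≤ c := by rw [hc]; have := abs_nonneg (α : ℝ); have := abs_nonneg (β : ℝ); linarith
  have hentry : ∀ i j : Fin m, ‖NE n (5 * n) α β γ (lgc m (xn n) i * lgc m (xn n) j)‖ ≤ c * A := by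
    intro i j
    rw [NE_apply]
    refine (norm_add_le _ _).trans ?_
    have e1 := NF_num n m (α : ℚ) (β : ℚ) i j A (hI i i.2) (hI j j.2) hA0.le
    have e2 := BF_num n m (by omega) hm2 i j i.2 j.2
    have e3 : ‖((ep (α : ℚ) (β : ℚ) (γ : ℚ) : ℝ) : ℂ)‖ ≤ Real.exp (-27.7 * n) := by
      rw [Complex.norm_real, Real.norm_eq_abs]
      unfold ep
      push_cast
      exact hε
    have e4 : ‖((ep (α : ℚ) (β : ℚ) (γ : ℚ) : ℝ) : ℂ) * BF n (5 * n) (lgc m (xn n) i * lgc m (xn n) j)‖ ≤ A := by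
      rw [norm_mul]
      calc _ ≤ Real.exp (-27.7 * n) * Real.exp (21 * n + 5 * n * Real.log n + 10 * Real.log n) :=
            mul_le_mul e3 e2 (norm_nonneg _) (Real.exp_pos _).le
        _ ≤ A := by
            rw [← Real.exp_add, hAdef, hCdef]
            apply Real.exp_le_exp.2
            nlinarith
    have e5 : (2 * |((α : ℚ) : ℝ)| + 2 * |((β : ℚ) : ℝ)|) = c - 1 := by
      rw [hc]; push_cast; ring
    rw [e5] at e1
    calc _ ≤ (c - 1) * A + A := add_le_add e1 e4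
      _ = c * A := by ring
  have hdb := BA_abs_det m (Matrix.of fun i j : Fin m => NE n (5 * n) α β γ (lgc m (xn n) i * lgc m (xn n) j))
    (fun _ => c * A) (fun _ => by positivity) (fun i j => by
      rw [Matrix.of_apply, ← sq]
      exact pow_le_pow_left₀ (norm_nonneg _) (hentry i j) 2)
  rw [← hdet, Finset.prod_const, Finset.card_range, mul_pow] at hdb
  have hfac : (m.factorial : ℝ) ≤ Real.exp (m * Real.log m) := by
    have hm0 : (0 : ℝ) < m := by
      have : 0 < m := by omega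
      exact_mod_cast this
    rw [mul_comm, Real.exp_mul, Real.exp_log hm0, Real.rpow_natCast]
    exact_mod_cast Nat.factorial_le_pow m
  have hmR1 : (4 : ℝ) * n - 1 ≤ m := by
    have : 4 * n ≤ m + 1 := by omega
    have : (4 : ℝ) * n ≤ m + 1 := by exact_mod_cast this
    linarith
  have hmR2 : (m : ℝ) ≤ 4 * n + 1 := by exact_mod_cast hm2
  have hlogm : Real.log m ≤ 2 * Real.log n := by
    rw [two_mul, ← Real.log_mul (by positivity) (by positivity)]
    apply Real.log_le_log (by linarith)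
    nlinarith
  have hAm : A ^ m = Real.exp (m * (-(665 / 100) * n + 5 * n * Real.log n + C * Real.log n)) := by
    rw [hAdef, ← Real.exp_nat_mul]
  have hfin : |((DD n (5 * n) m α β γ : ℚ) : ℝ)| ≤ c ^ m *
      Real.exp (m * Real.log m + m * (-(665 / 100) * n + 5 * n * Real.log n + C * Real.log n) - Real.log V) := by
    rw [Real.exp_sub, Real.exp_log hVpos, mul_div_assoc', le_div_iff₀ hVpos, Real.exp_add, ← hAm]
    refine hdb.trans ?_
    calc (m.factorial : ℝ) * (c ^ m * A ^ m) = c ^ m * ((m.factorial : ℝ) * A ^ m) := by ring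
      _ ≤ c ^ m * (Real.exp (m * Real.log m) * A ^ m) := by
          apply mul_le_mul_of_nonneg_left _ (by positivity)
          exact mul_le_mul_of_nonneg_right hfac (by positivity)
  rw [← hc]
  refine hfin.trans (mul_le_mul_of_nonneg_left (Real.exp_le_exp.2 ?_) (by positivity))
  have hQ : 21 / 10 ≤ Qx := h13
  have hnn : (0 : ℝ) ≤ (n : ℝ) ^ 2 := sq_nonneg _
  have b1 : (m : ℝ) * Real.log m ≤ 10 * (n * Real.log n) := by
    have : (m : ℝ) ≤ 5 * n := by linarith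
    have hl0 : 0 ≤ Real.log m := Real.log_nonneg (by linarith)
    calc (m : ℝ) * Real.log m ≤ (5 * n) * (2 * Real.log n) := mul_le_mul this hlogm hl0 (by positivity)
      _ = 10 * (n * Real.log n) := by ring
  have b2 : (m : ℝ) * (-(665 / 100) * n) ≤ -(266 / 10) * (n : ℝ) ^ 2 + 7 * n := by nlinarith
  have b3 : (m : ℝ) * (5 * n * Real.log n) ≤ 20 * ((n : ℝ) ^ 2 * Real.log n) + 5 * (n * Real.log n) := by
    have : 0 ≤ 5 * n * Real.log n := by positivity
    nlinarith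
  have b4 : (m : ℝ) * (C * Real.log n) ≤ 5 * C * (n * Real.log n) := by
    have h5 : (m : ℝ) ≤ 5 * n := by linarith
    have : 0 ≤ C * Real.log n := by positivity
    nlinarith
  have b5 : Qx * (n : ℝ) ^ 2 ≥ 21 / 10 * (n : ℝ) ^ 2 := mul_le_mul_of_nonneg_right hQ hnn
  nlinarith [hE', hsn, hsn2, b1, b2, b3, b4, b5]

end

end Pool.Agent.LP.MS
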