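import Pool.Agent.H297R2.LPM.Main

/-! `e^{π²}` is not close to `e^{a/q} 2^{p/q}`. -/

namespace Pool.Agent.LP.MS

lemma exp_sub_lower (x y : ℝ) (hx : 0 ≤ x) : min 1 |x - y| / 2 ≤ |Real.exp x - Real.exp y| := by
  have hE : 1 ≤ Real.exp x := Real.one_le_exp hx
  rcases le_total x y with h | h
  · have h1 : |x - y| = y - x := by rw [abs_sub_comm, abs_of_nonneg (by linarith)]
    have h2 : |Real.exp x - Real.exp y| = Real.exp y - Real.exp x := by
      rw [abs_sub_comm, abs_of_nonneg (by linarith [Real.exp_le_exp.2 h])]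
    have h3 : Real.exp y = Real.exp x * Real.exp (y - x) := by rw [← Real.exp_add]; ring_nf
    have h4 : y - x + 1 ≤ Real.exp (y - x) := Real.add_one_le_exp _
    rw [h1, h2, h3]
    have h5 : min 1 (y - x) ≤ y - x := min_le_right _ _
    have h6 : 0 ≤ y - x := by linarith
    nlinarith
  · have h1 : |x - y| = x - y := abs_of_nonneg (by linarith)
    have h2 : |Real.exp x - Real.exp y| = Real.exp x - Real.exp y :=
      abs_of_nonneg (by linarith [Real.exp_le_exp.2 h])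
    have h3 : Real.exp y * Real.exp (x - y) = Real.exp x := by rw [← Real.exp_add]; ring_nf
    have h4 : x - y + 1 ≤ Real.exp (x - y) := Real.add_one_le_exp _
    rw [h1, h2]
    have h6 : 0 ≤ x - y := by linarith
    have hy : 0 < Real.exp y := Real.exp_pos y
    have h7 : Real.exp y * (x - y + 1) ≤ Real.exp x := by
      rw [← h3]; exact mul_le_mul_of_nonneg_left h4 hy.le
    -- `e^x - e^y ≥ e^x (x-y)/(1+x-y)`
    rcases le_total (x - y) 1 with h8 | h8
    · have : min 1 (x - y) = x - y := min_eq_right h8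
      rw [this]
      nlinarith
    · have : min 1 (x - y) = 1 := min_eq_left h8
      rw [this]
      nlinarith

/-- **`e^{π²}` and the numbers `e^r 2^s`.** -/
theorem exp_measure : ∃ c : ℝ, 0 < c ∧ ∀ (a p : ℤ) (q : ℕ), 1 ≤ q →
    c / (max |(p : ℝ)| (q : ℝ)) ^ 224 ≤
      |Real.exp (Real.pi ^ 2) - Real.exp ((a : ℝ) / q) * (2 : ℝ) ^ ((p : ℝ) / q)| := by
  obtain ⟨c0, hc0, h⟩ := measure
  refine ⟨min c0 1 / 2, by positivity, fun a p q hq => ?_⟩
  have hqR : (1 : ℝ) ≤ q := by exact_mod_cast hq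
  have hq0 : (0 : ℝ) < q := by linarith
  obtain ⟨M, hM⟩ : ∃ M : ℝ, M = max |(p : ℝ)| (q : ℝ) := ⟨_, rfl⟩
  rw [← hM]
  have hqM : (q : ℝ) ≤ M := by rw [hM]; exact le_max_right _ _
  have hM1 : 1 ≤ M := hqR.trans hqM
  have e1 : Real.exp ((a : ℝ) / q) * (2 : ℝ) ^ ((p : ℝ) / q) = Real.exp ((a : ℝ) / q + (p : ℝ) / q * Real.log 2) := by
    rw [Real.rpow_def_of_pos (by norm_num), ← Real.exp_add]
    congr 1
    ring
  rw [e1]
  refine le_trans ?_ (exp_sub_lower _ _ (by positivity))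
  have h1 := h (-a) (-p) q (Or.inr (by exact_mod_cast (by omega : q ≠ 0)))
  have h2 : max |((-p : ℤ) : ℝ)| |((q : ℤ) : ℝ)| = M := by
    push_cast
    rw [abs_neg, abs_of_pos hq0, hM]
  rw [h2] at h1
  have h3 : |((-a : ℤ) : ℝ) + ((-p : ℤ) : ℝ) * Real.log 2 + ((q : ℤ) : ℝ) * Real.pi ^ 2| =
      q * |Real.pi ^ 2 - ((a : ℝ) / q + (p : ℝ) / q * Real.log 2)| := by
    rw [← abs_of_pos hq0, ← abs_mul, abs_of_pos hq0]
    congr 1
    push_cast
    field_simp
    ring
  rw [h3] at h1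
  have h4 : c0 / M ^ 224 ≤ |Real.pi ^ 2 - ((a : ℝ) / q + (p : ℝ) / q * Real.log 2)| := by
    rw [div_le_iff₀ (by positivity)] at h1 ⊢
    have h5 : (0 : ℝ) ≤ |Real.pi ^ 2 - ((a : ℝ) / q + (p : ℝ) / q * Real.log 2)| := abs_nonneg _
    calc c0 ≤ q * |Real.pi ^ 2 - ((a : ℝ) / q + (p : ℝ) / q * Real.log 2)| * M ^ 223 := h1
      _ ≤ M * |Real.pi ^ 2 - ((a : ℝ) / q + (p : ℝ) / q * Real.log 2)| * M ^ 223 := by
          apply mul_le_mul_of_nonneg_right _ (by positivity)
          exact mul_le_mul_of_nonneg_right hqM h5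
      _ = _ := by ring
  have h6 : min c0 1 / M ^ 224 ≤ min 1 |Real.pi ^ 2 - ((a : ℝ) / q + (p : ℝ) / q * Real.log 2)| := by
    apply le_min
    · rw [div_le_one (by positivity)]
      exact (min_le_right _ _).trans (one_le_pow₀ hM1)
    · refine le_trans ?_ h4
      exact div_le_div_of_nonneg_right (min_le_left _ _) (by positivity)
  calc min c0 1 / 2 / M ^ 224 = min c0 1 / M ^ 224 / 2 := by ring
    _ ≤ _ := div_le_div_of_nonneg_right h6 (by norm_num)

end Pool.Agent.LP.MS
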