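import Pool.Agent.H297R2.LPM.Arch3
import Pool.Agent.H422R2.LP.NMain
import Pool.Agent.H422R2.LP.PMainFin
import Pool.Agent.H422R2.LP.PL
import Pool.Agent.H336R2.HD.A5

/-! Measure of linear independence of `1, log 2, π²`: conclusion. -/

open Polynomial Filter Topology MeasureTheory

namespace Pool.Agent.LP.MS

open Pool.Agent.LP

noncomputable section

/-- archimedean bound with perturbation -/
def StM : Prop := ∀ᶠ n : ℕ in atTop, ∀ m : ℕ, 4 * n - 1 ≤ m → m ≤ 4 * n + 1 → ∀ α β γ : ℤ,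
    |(γ : ℝ) - α * Real.log 2 - β * (Real.pi ^ 2 / 12)| ≤ Real.exp (-27.7 * n) →
    |((DD n (5 * n) m α β γ : ℚ) : ℝ)| ≤ (2 * |(α : ℝ)| + 2 * |(β : ℝ)| + 1) ^ m *
      Real.exp (4 * (n : ℝ) ^ 2 * Real.log n - 28.6 * (n : ℝ) ^ 2)

theorem core (hM : StM) : ∃ N : ℕ, ∀ α β γ : ℤ, (α ≠ 0 ∨ β ≠ 0) →
    Real.exp (-27.7 * (N + 8.02 * Real.log (2 * |(α : ℝ)| + 2 * |(β : ℝ)| + 1))) ≤
      |(γ : ℝ) - α * Real.log 2 - β * (Real.pi ^ 2 / 12)| := by
  have h12 := hM.and P_main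
  rw [eventually_atTop] at h12
  obtain ⟨N1, hN1⟩ := h12
  refine ⟨N1 + 101, fun α β γ hne => ?_⟩
  obtain ⟨c, hc⟩ : ∃ c : ℝ, c = 2 * |(α : ℝ)| + 2 * |(β : ℝ)| + 1 := ⟨_, rfl⟩
  rw [← hc]
  have hc1 : 1 ≤ c := by
    rw [hc]
    have := abs_nonneg (α : ℝ)
    have := abs_nonneg (β : ℝ)
    linarith
  have hc0 : 0 < c := by linarith
  have hlc : 0 ≤ Real.log c := Real.log_nonneg hc1
  by_contra hcon
  push Not at hcon
  obtain ⟨n, hn⟩ : ∃ n : ℕ, n = N1 + 100 + ⌈8.02 * Real.log c⌉₊ := ⟨_, rfl⟩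
  have hnc1 : (8.02 : ℝ) * Real.log c ≤ ⌈8.02 * Real.log c⌉₊ := Nat.le_ceil _
  have hnc2 : (⌈8.02 * Real.log c⌉₊ : ℝ) < 8.02 * Real.log c + 1 := Nat.ceil_lt_add_one (by positivity)
  have hnR : (n : ℝ) = N1 + 100 + ⌈8.02 * Real.log c⌉₊ := by rw [hn]; push_cast; ring
  have hn100 : (100 : ℝ) ≤ n := by
    have : (0 : ℝ) ≤ (N1 : ℝ) := Nat.cast_nonneg _
    have : (0 : ℝ) ≤ (⌈8.02 * Real.log c⌉₊ : ℝ) := Nat.cast_nonneg _
    linarith
  have hnlow : 100 + 8.02 * Real.log c ≤ (n : ℝ) := by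
    have : (0 : ℝ) ≤ (N1 : ℝ) := Nat.cast_nonneg _
    linarith
  have hnN : N1 ≤ n := by omega
  have hn1 : 1 ≤ n := by omega
  have heps : |(γ : ℝ) - α * Real.log 2 - β * (Real.pi ^ 2 / 12)| ≤ Real.exp (-27.7 * n) := by
    refine hcon.le.trans (Real.exp_le_exp.2 ?_)
    push_cast
    nlinarith
  have hneQ : ((α : ℤ) : ℚ) ≠ 0 ∨ ((β : ℤ) : ℚ) ≠ 0 := by
    rcases hne with h | h
    · left; exact_mod_cast h
    · right; exact_mod_cast h
  obtain ⟨m, hm1, hm2, hD⟩ := N_main hn1 (α : ℚ) (β : ℚ) (γ : ℚ) hneQ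
  obtain ⟨hB, hPn⟩ := hN1 n hnN
  have hA := hB m hm1 hm2 α β γ heps
  have hPn := hPn m hm1 hm2 α β γ hD
  rw [← hc] at hA
  set z : ℚ := DD n (5 * n) m α β γ with hz
  set S : Finset ℕ := (Finset.range (5 * n + 1)).filter Nat.Prime with hS
  have hpf := Pool.Agent.H336R2.HD.A5_prod_formula z hD S (fun p hp => (Finset.mem_filter.1 hp).2)
    (fun p => ((padicNorm p z : ℚ) : ℝ)) (fun p _ => le_rfl) (fun p hp hpS => by
      rw [hS, Finset.mem_filter, Finset.mem_range] at hpS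
      have h1 : 5 * n < p := by
        by_contra h; exact hpS ⟨by omega, hp⟩
      have : Fact p.Prime := ⟨hp⟩
      exact P_big hn1 h1 hm2 α β γ)
  have hpos : ∀ p ∈ S, 0 < ((padicNorm p z : ℚ) : ℝ) := by
    intro p hp
    have : Fact p.Prime := ⟨(Finset.mem_filter.1 hp).2⟩
    have h1 : 0 < padicNorm p z := lt_of_le_of_ne (padicNorm.nonneg _) (Ne.symm (padicNorm.nonzero hD))
    exact_mod_cast h1
  have hprodpos : 0 < ∏ p ∈ S, ((padicNorm p z : ℚ) : ℝ) := Finset.prod_pos hpos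
  have hzabs : 0 < |(z : ℝ)| := abs_pos.2 (by exact_mod_cast hD)
  have hlog := Real.log_nonneg hpf
  rw [Real.log_mul hzabs.ne' hprodpos.ne', Real.log_prod (fun p hp => (hpos p hp).ne')] at hlog
  have hlz : Real.log |(z : ℝ)| ≤ m * Real.log c + (4 * (n : ℝ) ^ 2 * Real.log n - 28.6 * (n : ℝ) ^ 2) := by
    calc Real.log |(z : ℝ)| ≤ Real.log (c ^ m * Real.exp (4 * (n : ℝ) ^ 2 * Real.log n - 28.6 * (n : ℝ) ^ 2)) :=
          Real.log_le_log hzabs hA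
      _ = m * Real.log c + (4 * (n : ℝ) ^ 2 * Real.log n - 28.6 * (n : ℝ) ^ 2) := by
          rw [Real.log_mul (by positivity) (Real.exp_pos _).ne', Real.log_pow, Real.log_exp]
  have hmq : ((m : ℕ) : ℝ) * Real.log c ≤ 4.01 * n * Real.log c := by
    apply mul_le_mul_of_nonneg_right _ hlc
    have : (m : ℝ) ≤ 4 * n + 1 := by exact_mod_cast hm2
    linarith
  have h1 : 4.01 * n * Real.log c < (n : ℝ) ^ 2 / 2 := by
    have : 8.02 * Real.log c < n := by linarith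
    have hn0 : (0 : ℝ) < n := by linarith
    nlinarith
  nlinarith

/-- the measure, in terms of `α, β, γ` -/
theorem measure_of (hM : StM) : ∃ c : ℝ, 0 < c ∧ ∀ a b d : ℤ, (b ≠ 0 ∨ d ≠ 0) →
    c / (max |(b : ℝ)| |(d : ℝ)|) ^ 223 ≤ |(a : ℝ) + b * Real.log 2 + d * Real.pi ^ 2| := by
  obtain ⟨N, hN⟩ := core hM
  refine ⟨Real.exp (-27.7 * N) * (27 : ℝ) ^ (-(27.7 * 8.02 : ℝ)), by positivity, fun a b d hne => ?_⟩
  have h1 := hN b (12 * d) (-a) (by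
    rcases hne with h | h
    · left; exact h
    · right; omega)
  obtain ⟨M, hMdef⟩ : ∃ M : ℝ, M = max |(b : ℝ)| |(d : ℝ)| := ⟨_, rfl⟩
  rw [← hMdef]
  have hM1 : 1 ≤ M := by
    rw [hMdef]
    rcases hne with h | h
    · have : 1 ≤ |(b : ℝ)| := by exact_mod_cast Int.one_le_abs h
      exact this.trans (le_max_left _ _)
    · have : 1 ≤ |(d : ℝ)| := by exact_mod_cast Int.one_le_abs h
      exact this.trans (le_max_right _ _)
  have hbM : |(b : ℝ)| ≤ M := by rw [hMdef]; exact le_max_left _ _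
  have hdM : |(d : ℝ)| ≤ M := by rw [hMdef]; exact le_max_right _ _
  have hH : 2 * |((b : ℤ) : ℝ)| + 2 * |((12 * d : ℤ) : ℝ)| + 1 ≤ 27 * M := by
    push_cast
    rw [abs_mul]
    have : |(12 : ℝ)| = 12 := by norm_num
    rw [this]
    linarith
  have hH0 : 0 < 2 * |((b : ℤ) : ℝ)| + 2 * |((12 * d : ℤ) : ℝ)| + 1 := by positivity
  have hlog : Real.log (2 * |((b : ℤ) : ℝ)| + 2 * |((12 * d : ℤ) : ℝ)| + 1) ≤ Real.log 27 + Real.log M := by
    rw [← Real.log_mul (by norm_num) (by linarith)]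
    exact Real.log_le_log hH0 hH
  have hlM : 0 ≤ Real.log M := Real.log_nonneg hM1
  have e1 : |(((-a : ℤ)) : ℝ) - (b : ℤ) * Real.log 2 - ((12 * d : ℤ) : ℝ) * (Real.pi ^ 2 / 12)| =
      |(a : ℝ) + b * Real.log 2 + d * Real.pi ^ 2| := by
    rw [← abs_neg]
    congr 1
    push_cast
    ring
  rw [e1] at h1
  refine le_trans ?_ h1
  have e2 : Real.exp (-27.7 * N) * (27 : ℝ) ^ (-(27.7 * 8.02 : ℝ)) / M ^ 223 =
      Real.exp (-27.7 * N - 27.7 * 8.02 * Real.log 27 - 223 * Real.log M) := by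
    have hM0 : (0 : ℝ) < M := by linarith
    have h27 : (27 : ℝ) ^ (-(27.7 * 8.02 : ℝ)) = Real.exp (-(27.7 * 8.02 * Real.log 27)) := by
      rw [Real.rpow_def_of_pos (by norm_num)]
      congr 1
      ring
    have hM223 : M ^ 223 = Real.exp (223 * Real.log M) := by
      have : (223 : ℝ) * Real.log M = ((223 : ℕ) : ℝ) * Real.log M := by norm_num
      rw [this, Real.exp_nat_mul, Real.exp_log hM0]
    rw [h27, hM223, ← Real.exp_add, ← Real.exp_sub]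
    congr 1
  rw [e2]
  apply Real.exp_le_exp.2
  nlinarith

end

end Pool.Agent.LP.MS
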