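import Pool.Agent.H297R2.LPM.Quad

/-! A family of cases of the strong four exponentials problem. -/

namespace Pool.Agent.LP.MS

/-- rational linear independence of the five monomials, in coefficients -/
lemma li5 (a b d e g : ℚ) (h : (a : ℂ) + b * (Real.log 2 : ℂ) + d * (Real.pi * Complex.I) +
      e * ((Real.log 2 : ℂ) * (Real.pi * Complex.I)) + g * (Real.pi * Complex.I) ^ 2 = 0) :
    a = 0 ∧ b = 0 ∧ d = 0 ∧ e = 0 ∧ g = 0 := by
  obtain ⟨c0, hc0, hq⟩ := quad_measure
  obtain ⟨N, hNdef⟩ : ∃ N : ℤ, N = (a.den : ℤ) * b.den * d.den * e.den * g.den := ⟨_, rfl⟩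
  have hN : N ≠ 0 := by
    rw [hNdef]
    have := a.den_nz
    have := b.den_nz
    have := d.den_nz
    have := e.den_nz
    have := g.den_nz
    positivity
  have hNQ : (N : ℚ) ≠ 0 := by exact_mod_cast hN
  obtain ⟨a', ha'⟩ : ∃ a' : ℤ, (a' : ℚ) = N * a := ⟨a.num * b.den * d.den * e.den * g.den, by
    rw [hNdef]
    have := Rat.mul_den_eq_num a
    push_cast
    rw [← this]
    ring⟩
  obtain ⟨b', hb'⟩ : ∃ b' : ℤ, (b' : ℚ) = N * b := ⟨b.num * a.den * d.den * e.den * g.den, by
    rw [hNdef]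
    have := Rat.mul_den_eq_num b
    push_cast
    rw [← this]
    ring⟩
  obtain ⟨d', hd'⟩ : ∃ d' : ℤ, (d' : ℚ) = N * d := ⟨d.num * a.den * b.den * e.den * g.den, by
    rw [hNdef]
    have := Rat.mul_den_eq_num d
    push_cast
    rw [← this]
    ring⟩
  obtain ⟨e', he'⟩ : ∃ e' : ℤ, (e' : ℚ) = N * e := ⟨e.num * a.den * b.den * d.den * g.den, by
    rw [hNdef]
    have := Rat.mul_den_eq_num e
    push_cast
    rw [← this]
    ring⟩
  obtain ⟨g', hg'⟩ : ∃ g' : ℤ, (g' : ℚ) = N * g := ⟨g.num * a.den * b.den * d.den * e.den, by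
    rw [hNdef]
    have := Rat.mul_den_eq_num g
    push_cast
    rw [← this]
    ring⟩
  by_cases hne : a' ≠ 0 ∨ b' ≠ 0 ∨ d' ≠ 0 ∨ e' ≠ 0 ∨ g' ≠ 0
  · exfalso
    obtain ⟨H, hH⟩ : ∃ H : ℝ, H = 1 + |(a' : ℝ)| + |(b' : ℝ)| + |(d' : ℝ)| + |(e' : ℝ)| + |(g' : ℝ)| := ⟨_, rfl⟩
    have n1 := abs_nonneg (a' : ℝ)
    have n2 := abs_nonneg (b' : ℝ)
    have n3 := abs_nonneg (d' : ℝ)
    have n4 := abs_nonneg (e' : ℝ)
    have n5 := abs_nonneg (g' : ℝ)
    have key := hq a' b' d' e' g' hne H (by linarith) (by linarith) (by linarith) (by linarith) (by linarith)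
    have ca : (a' : ℂ) = N * a := by exact_mod_cast congrArg (fun t : ℚ => (t : ℂ)) ha'
    have cb : (b' : ℂ) = N * b := by exact_mod_cast congrArg (fun t : ℚ => (t : ℂ)) hb'
    have cd : (d' : ℂ) = N * d := by exact_mod_cast congrArg (fun t : ℚ => (t : ℂ)) hd'
    have ce : (e' : ℂ) = N * e := by exact_mod_cast congrArg (fun t : ℚ => (t : ℂ)) he'
    have cg : (g' : ℂ) = N * g := by exact_mod_cast congrArg (fun t : ℚ => (t : ℂ)) hg'
    have h0 : (a' : ℂ) + b' * (Real.log 2 : ℂ) + d' * (Real.pi * Complex.I) +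
      e' * ((Real.log 2 : ℂ) * (Real.pi * Complex.I)) + g' * (Real.pi * Complex.I) ^ 2 = 0 := by
      rw [ca, cb, cd, ce, cg]
      linear_combination (N : ℂ) * h
    rw [h0, norm_zero] at key
    have hHp : 0 < H := by linarith
    have : 0 < c0 / H ^ 223 := by positivity
    linarith
  · push Not at hne
    obtain ⟨z1, z2, z3, z4, z5⟩ := hne
    rw [z1, Int.cast_zero] at ha'
    rw [z2, Int.cast_zero] at hb'
    rw [z3, Int.cast_zero] at hd'
    rw [z4, Int.cast_zero] at he'
    rw [z5, Int.cast_zero] at hg'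
    exact ⟨(mul_eq_zero.1 ha'.symm).resolve_left hNQ, (mul_eq_zero.1 hb'.symm).resolve_left hNQ,
      (mul_eq_zero.1 hd'.symm).resolve_left hNQ, (mul_eq_zero.1 he'.symm).resolve_left hNQ,
      (mul_eq_zero.1 hg'.symm).resolve_left hNQ⟩

/-- two products of linear forms agree: first factor proportional to one of the others -/
lemma two_prod (u v t z : Fin 3 → ℚ)
    (h : ∀ i j, u i * z j + u j * z i = v i * t j + v j * t i) :
    (∀ i j, u i * v j = u j * v i) ∨ (∀ i j, u i * t j = u j * t i) := by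
  by_cases hA : ∀ i j, u i * v j = u j * v i
  · exact Or.inl hA
  · right
    push Not at hA
    obtain ⟨i, j, hij⟩ := hA
    have hA0 : u i * v j - u j * v i ≠ 0 := sub_ne_zero.2 hij
    have hB : u i * t j - u j * t i = 0 := by
      have : (u i * v j - u j * v i) * (u i * t j - u j * t i) = 0 := by
        linear_combination u i * u j * h i j - (u i) ^ 2 * (1 / 2) * h j j - (u j) ^ 2 * (1 / 2) * h i i
      exact (mul_eq_zero.1 this).resolve_left hA0
    -- `B_{il} = 0` for every `l`
    have hil : ∀ l, u i * t l - u l * t i = 0 := by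
      intro l
      have : (u i * v j - u j * v i) * (u i * t l - u l * t i) = 0 := by
        have h1 : (u i * v j - u j * v i) * (u i * t l - u l * t i) +
            (u i * v l - u l * v i) * (u i * t j - u j * t i) = 0 := by
          linear_combination (-(u i) ^ 2) * h j l + u i * u l * h i j + u i * u j * h i l - u j * u l * h i i
        rw [hB, mul_zero, add_zero] at h1
        exact h1
      exact (mul_eq_zero.1 this).resolve_left hA0
    have hjl : ∀ l, u j * t l - u l * t j = 0 := by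
      intro l
      have : (u i * v j - u j * v i) * (u j * t l - u l * t j) = 0 := by
        have h1 : (u j * v i - u i * v j) * (u j * t l - u l * t j) +
            (u j * v l - u l * v j) * (u j * t i - u i * t j) = 0 := by
          linear_combination (-(u j) ^ 2) * h i l + u j * u l * h i j + u j * u i * h j l - u i * u l * h j j
        have h2 : u j * t i - u i * t j = 0 := by linear_combination -hB
        rw [h2, mul_zero, add_zero] at h1
        linear_combination -h1
      exact (mul_eq_zero.1 this).resolve_left hA0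
    intro k l
    -- one of `u i`, `u j` is nonzero
    by_cases hi : u i = 0
    · by_cases hj : u j = 0
      · exfalso
        apply hA0
        rw [hi, hj]
        ring
      · have h1 := hjl k
        have h2 := hjl l
        have : u j * (u k * t l - u l * t k) = 0 := by linear_combination u k * h2 - u l * h1
        have := (mul_eq_zero.1 this).resolve_left hj
        linarith
    · have h1 := hil k
      have h2 := hil l
      have : u i * (u k * t l - u l * t k) = 0 := by linear_combination u k * h2 - u l * h1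
      have := (mul_eq_zero.1 this).resolve_left hi
      linarith

/-- value of a linear form -/
noncomputable def ev (u : Fin 3 → ℚ) : ℂ := u 0 + u 1 * (Real.log 2 : ℂ) + u 2 * (Real.pi * Complex.I)

theorem four (x₁ x₂ y₁ y₂ : ℂ) (hx : LinearIndependent ℚ ![x₁, x₂]) (hy : LinearIndependent ℚ ![y₁, y₂])
    (u v t z : Fin 3 → ℚ)
    (h11 : x₁ * y₁ = u 0 + u 1 * (Real.log 2 : ℂ) + u 2 * (Real.pi * Complex.I))
    (h12 : x₁ * y₂ = v 0 + v 1 * (Real.log 2 : ℂ) + v 2 * (Real.pi * Complex.I))
    (h21 : x₂ * y₁ = t 0 + t 1 * (Real.log 2 : ℂ) + t 2 * (Real.pi * Complex.I))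
    (h22 : x₂ * y₂ = z 0 + z 1 * (Real.log 2 : ℂ) + z 2 * (Real.pi * Complex.I)) :
    u 1 * z 1 ≠ v 1 * t 1 := by
  intro hL
  rw [LinearIndependent.pair_iff] at hx hy
  have hx1 : x₁ ≠ 0 := by
    intro h0
    have := hx 1 0 (by rw [h0]; simp)
    exact one_ne_zero this.1
  have hy1 : y₁ ≠ 0 := by
    intro h0
    have := hy 1 0 (by rw [h0]; simp)
    exact one_ne_zero this.1
  have hLc : (u 1 : ℂ) * z 1 = v 1 * t 1 := by exact_mod_cast hL
  have hdet : ((u 0 * z 0 - v 0 * t 0 : ℚ) : ℂ) +
      ((u 0 * z 1 + u 1 * z 0 - v 0 * t 1 - v 1 * t 0 : ℚ) : ℂ) * (Real.log 2 : ℂ) +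
      ((u 0 * z 2 + u 2 * z 0 - v 0 * t 2 - v 2 * t 0 : ℚ) : ℂ) * (Real.pi * Complex.I) +
      ((u 1 * z 2 + u 2 * z 1 - v 1 * t 2 - v 2 * t 1 : ℚ) : ℂ) * ((Real.log 2 : ℂ) * (Real.pi * Complex.I)) +
      ((u 2 * z 2 - v 2 * t 2 : ℚ) : ℂ) * (Real.pi * Complex.I) ^ 2 = 0 := by
    have h0 : (x₁ * y₁) * (x₂ * y₂) - (x₁ * y₂) * (x₂ * y₁) = 0 := by ring
    rw [h11, h12, h21, h22] at h0
    push_cast
    linear_combination h0 - (Real.log 2 : ℂ) ^ 2 * hLc
  obtain ⟨e1, e2, e3, e4, e5⟩ := li5 _ _ _ _ _ hdet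
  have hall : ∀ i j, u i * z j + u j * z i = v i * t j + v j * t i := by
    intro i j
    fin_cases i <;> fin_cases j <;> simp only [Fin.zero_eta, Fin.mk_one, Fin.reduceFinMk]
    · linear_combination 2 * e1
    · linear_combination e2
    · linear_combination e3
    · linear_combination e2
    · linear_combination 2 * hL
    · linear_combination e4
    · linear_combination e3
    · linear_combination e4
    · linear_combination 2 * e5
  have hu : ∃ i, u i ≠ 0 := by
    by_contra hcon
    push Not at hcon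
    rw [hcon 0, hcon 1, hcon 2] at h11
    simp only [Rat.cast_zero, zero_mul, add_zero] at h11
    exact (mul_ne_zero hx1 hy1) h11
  obtain ⟨i, hi⟩ := hu
  have hiC : (u i : ℂ) ≠ 0 := by exact_mod_cast hi
  rcases two_prod u v t z hall with hA | hB
  · have hk : ∀ k, (u i : ℂ) * v k = u k * v i := fun k => by exact_mod_cast hA i k
    have h1 : (u i : ℂ) * (x₁ * y₂) = (v i : ℂ) * (x₁ * y₁) := by
      rw [h11, h12]
      linear_combination hk 0 + hk 1 * (Real.log 2 : ℂ) + hk 2 * (Real.pi * Complex.I)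
    have h2 : (v i : ℂ) * y₁ - u i * y₂ = 0 := by
      have : x₁ * ((v i : ℂ) * y₁ - u i * y₂) = 0 := by linear_combination -h1
      exact (mul_eq_zero.1 this).resolve_left hx1
    have h3 := hy (v i) (-(u i)) (by
      rw [Rat.smul_def, Rat.smul_def]
      push_cast
      linear_combination h2)
    exact hi (neg_eq_zero.1 h3.2)
  · have hk : ∀ k, (u i : ℂ) * t k = u k * t i := fun k => by exact_mod_cast hB i k
    have h1 : (u i : ℂ) * (x₂ * y₁) = (t i : ℂ) * (x₁ * y₁) := by
      rw [h11, h21]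
      linear_combination hk 0 + hk 1 * (Real.log 2 : ℂ) + hk 2 * (Real.pi * Complex.I)
    have h2 : (t i : ℂ) * x₁ - u i * x₂ = 0 := by
      have : y₁ * ((t i : ℂ) * x₁ - u i * x₂) = 0 := by linear_combination -h1
      exact (mul_eq_zero.1 this).resolve_left hy1
    have h3 := hx (t i) (-(u i)) (by
      rw [Rat.smul_def, Rat.smul_def]
      push_cast
      linear_combination h2)
    exact hi (neg_eq_zero.1 h3.2)

end Pool.Agent.LP.MS
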