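import Pool.Agent.H757R2.LP.A4

/-! General line formula for `L` (no relation between `α, β, γ`). -/

open Polynomial Filter Topology MeasureTheory

namespace Pool.Agent.LP.MS

open Pool.Agent.LP Pool.Agent.H757R2.LP

noncomputable section

lemma H_val_gen (k : ℕ) (α β γ : ℚ) :
    α * H 0 k + β * H 1 k = (((-1 : ℚ) ^ k * (γ + α * Sh 1 k + β * Sh 2 k) : ℚ) : ℂ) -
      (-1) ^ k * (((γ : ℝ) - α * Real.log 2 - β * (Real.pi ^ 2 / 12) : ℝ) : ℂ) := by
  have h0 := H_Sh 0 (by norm_num) k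
  have h1 := H_Sh 1 le_rfl k
  rw [H00] at h0
  rw [H10] at h1
  have hs : (-1 : ℂ) ^ k * (-1) ^ k = 1 := by
    rw [← mul_pow]
    simp
  simp only [zero_add] at h0
  have h3 : (1 + 1 : ℕ) = 2 := rfl
  rw [h3] at h1
  push_cast
  push_cast at h0 h1
  linear_combination (-(α * H 0 k + β * H 1 k)) * hs + (-1) ^ k * (α * h0 + β * h1)

/-- the general line formula -/
theorem A_line_gen (a b : ℕ) (α β γ : ℚ) (f : ℚ[X]) :
    ((L a b α β γ f : ℚ) : ℂ) = (∫ y : ℝ, aeval (zl y) f * Gw a b α β y) +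
      (((γ : ℝ) - α * Real.log 2 - β * (Real.pi ^ 2 / 12) : ℝ) : ℂ) *
        ((∑ k ∈ Finset.Icc a b, (-1 : ℚ) ^ k * rs a b f k : ℚ) : ℂ) := by
  have h1 : ∀ y : ℝ, aeval (zl y) f * Gw a b α β y = aeval (zl y) (pp a b f) * Pool.Agent.LP.ker α β y +
      ∑ k ∈ Finset.Icc a b, ((rs a b f k : ℚ) : ℂ) * ((zl y + k)⁻¹ * Pool.Agent.LP.ker α β y) := by
    intro y
    unfold Gw
    rw [← mul_assoc, pf a b f (zl y) (zl_k_ne y), add_mul, Finset.sum_mul]
    congr 1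
    refine Finset.sum_congr rfl fun k _ => ?_
    ring
  rw [integral_congr_ae (Eventually.of_forall h1), integral_add (poly_ker_int (pp a b f) α β)
    (integrable_finsetSum (Finset.Icc a b) fun k _ => (rat_ker_int k α β).const_mul ((rs a b f k : ℚ) : ℂ)),
    integral_finsetSum _ fun k _ => (rat_ker_int k α β).const_mul ((rs a b f k : ℚ) : ℂ), poly_ker]
  have h2 : ∀ k ∈ Finset.Icc a b, ∫ y : ℝ, ((rs a b f k : ℚ) : ℂ) * ((zl y + k)⁻¹ * Pool.Agent.LP.ker α β y) =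
      (((-1 : ℚ) ^ k * rs a b f k * (γ + α * Sh 1 k + β * Sh 2 k) : ℚ) : ℂ) -
        (((γ : ℝ) - α * Real.log 2 - β * (Real.pi ^ 2 / 12) : ℝ) : ℂ) * (((-1 : ℚ) ^ k * rs a b f k : ℚ) : ℂ) := by
    intro k _
    rw [integral_const_mul, rat_ker, H_val_gen k α β γ]
    push_cast
    ring
  rw [Finset.sum_congr rfl h2, Finset.sum_sub_distrib, ← Finset.mul_sum]
  change ((Lf a b α β γ f : ℚ) : ℂ) = _
  unfold Lf
  push_cast
  ring

end

end Pool.Agent.LP.MS
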