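import Pool.Agent.H297R2.LPM.Final
import Pool.Agent.H97R2.LPB.BMain

/-! Measure of linear independence of `1, log 2, π²`. -/

namespace Pool.Agent.LP.MS

open Pool.Agent

/-- **Measure of linear independence of `1, log 2, π²`.** -/
theorem measure : ∃ c : ℝ, 0 < c ∧ ∀ a b d : ℤ, (b ≠ 0 ∨ d ≠ 0) →
    c / (max |(b : ℝ)| |(d : ℝ)|) ^ 223 ≤ |(a : ℝ) + b * Real.log 2 + d * Real.pi ^ 2| :=
  measure_of (B_meas_of LPB.G1_int LPB.G1_cont LPB.G3_sep LPB.G4_pot LPB.G5_weight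
    (LPB.G6_energy LPB.G6_pair LPB.G3_sep) LPB.V0_even (LPB.V1_cert1 LPB.V0_shape) (LPB.V1_cert2 LPB.V0_shape)
    (LPB.V1_cert3 LPB.V0_shape) LPB.V1_tail LPB.V2_energy)

end Pool.Agent.LP.MS
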