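import Pool.Agent.H297R2.LPM.Main

/-! Quadratic polynomials in `log 2` and `i π`. -/

namespace Pool.Agent.LP.MS

/-- **Lower bound for quadratic polynomials without `X²` term at `(log 2, iπ)`.** -/
theorem quad_measure : ∃ c : ℝ, 0 < c ∧ ∀ a b d e g : ℤ, (a ≠ 0 ∨ b ≠ 0 ∨ d ≠ 0 ∨ e ≠ 0 ∨ g ≠ 0) →
    ∀ H : ℝ, |(a : ℝ)| ≤ H → |(b : ℝ)| ≤ H → |(d : ℝ)| ≤ H → |(e : ℝ)| ≤ H → |(g : ℝ)| ≤ H →
    c / H ^ 223 ≤ ‖(a : ℂ) + b * (Real.log 2 : ℂ) + d * (Real.pi * Complex.I) +
      e * ((Real.log 2 : ℂ) * (Real.pi * Complex.I)) + g * (Real.pi * Complex.I) ^ 2‖ := by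
  obtain ⟨c0, hc0, h⟩ := measure
  refine ⟨min c0 1, lt_min hc0 one_pos, fun a b d e g hne H ha hb hd he hg => ?_⟩
  set z : ℂ := (a : ℂ) + b * (Real.log 2 : ℂ) + d * (Real.pi * Complex.I) +
      e * ((Real.log 2 : ℂ) * (Real.pi * Complex.I)) + g * (Real.pi * Complex.I) ^ 2 with hz
  have hzz : z = ((a + b * Real.log 2 + ((-g : ℤ) : ℝ) * Real.pi ^ 2 : ℝ) : ℂ) +
      ((Real.pi * (d + e * Real.log 2) : ℝ) : ℂ) * Complex.I := by
    rw [hz]
    have hI := Complex.I_sq
    push_cast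
    linear_combination (g * (Real.pi : ℂ) ^ 2) * hI
  have hre : z.re = a + b * Real.log 2 + ((-g : ℤ) : ℝ) * Real.pi ^ 2 := by
    rw [hzz, Complex.add_re, Complex.re_ofReal_mul, Complex.I_re, Complex.ofReal_re]
    ring
  have him : z.im = Real.pi * (d + e * Real.log 2) := by
    rw [hzz, Complex.add_im, Complex.im_ofReal_mul, Complex.I_im, Complex.ofReal_im]
    ring
  have h1 := Complex.abs_re_le_norm z
  have h2 := Complex.abs_im_le_norm z
  rw [hre] at h1
  rw [him] at h2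
  have hH : 1 ≤ H := by
    rcases hne with h' | h' | h' | h' | h'
    · exact (show (1 : ℝ) ≤ |(a : ℝ)| by exact_mod_cast Int.one_le_abs h').trans ha
    · exact (show (1 : ℝ) ≤ |(b : ℝ)| by exact_mod_cast Int.one_le_abs h').trans hb
    · exact (show (1 : ℝ) ≤ |(d : ℝ)| by exact_mod_cast Int.one_le_abs h').trans hd
    · exact (show (1 : ℝ) ≤ |(e : ℝ)| by exact_mod_cast Int.one_le_abs h').trans he
    · exact (show (1 : ℝ) ≤ |(g : ℝ)| by exact_mod_cast Int.one_le_abs h').trans hg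
  have hHp : (1 : ℝ) ≤ H ^ 223 := one_le_pow₀ hH
  have hle1 : min c0 1 / H ^ 223 ≤ 1 := by
    rw [div_le_one (by positivity)]
    exact (min_le_right _ _).trans hHp
  have key : ∀ x y : ℤ, (x ≠ 0 ∨ y ≠ 0) → |(x : ℝ)| ≤ H → |(y : ℝ)| ≤ H →
      min c0 1 / H ^ 223 ≤ c0 / (max |(x : ℝ)| |(y : ℝ)|) ^ 223 := by
    intro x y hxy hx hy
    have hm1 : 1 ≤ max |(x : ℝ)| |(y : ℝ)| := by
      rcases hxy with h' | h'
      · exact (show (1 : ℝ) ≤ |(x : ℝ)| by exact_mod_cast Int.one_le_abs h').trans (le_max_left _ _)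
      · exact (show (1 : ℝ) ≤ |(y : ℝ)| by exact_mod_cast Int.one_le_abs h').trans (le_max_right _ _)
    have hm2 : max |(x : ℝ)| |(y : ℝ)| ≤ H := max_le hx hy
    exact div_le_div₀ hc0.le (min_le_left _ _) (by positivity) (pow_le_pow_left₀ (by linarith) hm2 223)
  by_cases hbg : b ≠ 0 ∨ g ≠ 0
  · have hbg' : b ≠ 0 ∨ -g ≠ 0 := by
      rcases hbg with h' | h'
      · left; exact h'
      · right; omega
    have h3 := h a b (-g) hbg'
    have hg' : |((-g : ℤ) : ℝ)| ≤ H := by push_cast; rw [abs_neg]; exact hg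
    exact (key b (-g) hbg' hb hg').trans (h3.trans h1)
  · push Not at hbg
    obtain ⟨hb0, hg0⟩ := hbg
    by_cases ha0 : a = 0
    · by_cases he0 : e = 0
      · have hd0 : d ≠ 0 := by
          rcases hne with h' | h' | h' | h' | h'
          · exact absurd ha0 h'
          · exact absurd hb0 h'
          · exact h'
          · exact absurd he0 h'
          · exact absurd hg0 h'
        have hd1 : (1 : ℝ) ≤ |(d : ℝ)| := by exact_mod_cast Int.one_le_abs hd0
        refine hle1.trans (le_trans ?_ h2)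
        rw [he0, Int.cast_zero, zero_mul, add_zero, abs_mul, abs_of_pos Real.pi_pos]
        nlinarith [Real.pi_gt_three]
      · have h3 := h d e 0 (Or.inl he0)
        rw [Int.cast_zero, zero_mul, add_zero] at h3
        have h0 : |((0 : ℤ) : ℝ)| ≤ H := by rw [Int.cast_zero, abs_zero]; linarith
        have h4 := key e 0 (Or.inl he0) he h0
        rw [Int.cast_zero] at h4
        refine (h4.trans h3).trans (le_trans ?_ h2)
        rw [abs_mul, abs_of_pos Real.pi_pos]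
        nlinarith [Real.pi_gt_three, abs_nonneg ((d : ℝ) + e * Real.log 2)]
    · have ha1 : (1 : ℝ) ≤ |(a : ℝ)| := by exact_mod_cast Int.one_le_abs ha0
      refine hle1.trans (le_trans ?_ h1)
      rw [hb0, hg0]
      simpa using ha1

end Pool.Agent.LP.MS
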